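import Mathlib

set_option autoImplicit false

/-!
Geometric permutations of lines: combinatorial core (helper file for MP_25490b_co).
-/

namespace Pool.Agent.helper8.GP

open Finset

/-- Points `(x t i, a t + x t i • b t)` on the lines `x ↦ (x, a t + x • b t)` of `ℝ × V`. -/
def pt {V ι τ : Type} [AddCommGroup V] [Module ℝ V] (x : τ → ι → ℝ) (a b : τ → V) (t : τ) (i : ι) :
    ℝ × V := (x t i, a t + x t i • b t)

/-- A good configuration: finitely many lines `t`, and for each index `i` one point on each line,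
so that the point sets of two different indices are strictly separated by a hyperplane and
different lines see the indices in different orders. -/
def Good (V ι τ : Type) [AddCommGroup V] [Module ℝ V] : Prop :=
  ∃ (x : τ → ι → ℝ) (a b : τ → V),
    (∀ i j, i ≠ j → ∃ (f : (ℝ × V) →ₗ[ℝ] ℝ) (c : ℝ),
      (∀ t, f (pt x a b t i) < c) ∧ (∀ t, c < f (pt x a b t j))) ∧
    (∀ t t', t ≠ t' → ∃ i j, x t i < x t j ∧ x t' j < x t' i)

theorem Good.equiv {V W ι τ : Type} [AddCommGroup V] [Module ℝ V] [AddCommGroup W] [Module ℝ W]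
    (e : V ≃ₗ[ℝ] W) (h : Good V ι τ) : Good W ι τ := by
  obtain ⟨x, a, b, h1, h2⟩ := h
  refine ⟨x, fun t => e (a t), fun t => e (b t), ?_, h2⟩
  intro i j hij
  obtain ⟨f, c, hf1, hf2⟩ := h1 i j hij
  refine ⟨f ∘ₗ (LinearMap.prodMap LinearMap.id e.symm.toLinearMap), c, ?_, ?_⟩
  · intro t
    have := hf1 t
    simpa [pt] using this
  · intro t
    have := hf2 t
    simpa [pt] using this

theorem Good.reindex {V ι ι' τ τ' : Type} [AddCommGroup V] [Module ℝ V]
    (e : ι' ≃ ι) (g : τ' ↪ τ) (h : Good V ι τ) : Good V ι' τ' := by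
  obtain ⟨x, a, b, h1, h2⟩ := h
  refine ⟨fun t i => x (g t) (e i), fun t => a (g t), fun t => b (g t), ?_, ?_⟩
  · intro i j hij
    obtain ⟨f, c, hf1, hf2⟩ := h1 (e i) (e j) (fun h => hij (e.injective h))
    exact ⟨f, c, fun t => hf1 (g t), fun t => hf2 (g t)⟩
  · intro t t' htt
    obtain ⟨i, j, hi, hj⟩ := h2 (g t) (g t') (fun h => htt (g.injective h))
    exact ⟨e.symm i, e.symm j, by simpa using hi, by simpa using hj⟩

/-- Adding one more set far away to the right. -/
theorem Good.option {V ι τ : Type} [AddCommGroup V] [Module ℝ V] [Finite ι] [Finite τ]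
    (h : Good V ι τ) : Good V (Option ι) τ := by
  obtain ⟨x, a, b, h1, h2⟩ := h
  obtain ⟨L, hL⟩ : ∃ L : ℝ, ∀ p : τ × ι, x p.1 p.2 ≤ L := by
    obtain ⟨L, hL⟩ := (Set.finite_range (fun p : τ × ι => x p.1 p.2)).bddAbove
    exact ⟨L, fun p => hL ⟨p, rfl⟩⟩
  refine ⟨fun t i => i.elim (L + 2) (fun i => x t i), a, b, ?_, ?_⟩
  · intro i j hij
    cases i with
    | none =>
      cases j with
      | none => exact absurd rfl hij
      | some j =>
        refine ⟨-LinearMap.fst ℝ ℝ V, -(L + 1), ?_, ?_⟩
        · intro t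
          simp [pt]
        · intro t
          have := hL (t, j)
          simp [pt]
          simp at this
          linarith
    | some i =>
      cases j with
      | none =>
        refine ⟨LinearMap.fst ℝ ℝ V, L + 1, ?_, ?_⟩
        · intro t
          have := hL (t, i)
          simp [pt]
          simp at this
          linarith
        · intro t
          simp [pt]
      | some j =>
        obtain ⟨f, c, hf1, hf2⟩ := h1 i j (fun h => hij (by rw [h]))
        exact ⟨f, c, hf1, hf2⟩
  · intro t t' htt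
    obtain ⟨i, j, hi, hj⟩ := h2 t t' htt
    exact ⟨some i, some j, hi, hj⟩

/-- Product construction. -/
theorem Good.prod {V W ι κ τ υ : Type} [AddCommGroup V] [Module ℝ V] [AddCommGroup W] [Module ℝ W]
    [Finite ι] [Finite κ] [Finite τ] [Finite υ]
    (h : Good V ι τ) (h' : Good W κ υ) : Good (V × W) (ι ⊕ κ) (τ × υ) := by
  obtain ⟨x, a, b, h1, h2⟩ := h
  obtain ⟨y, c, d, h3, h4⟩ := h'
  obtain ⟨L, hL⟩ : ∃ L : ℝ, ∀ p : τ × ι, x p.1 p.2 ≤ L := by
    obtain ⟨L, hL⟩ := (Set.finite_range (fun p : τ × ι => x p.1 p.2)).bddAbove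
    exact ⟨L, fun p => hL ⟨p, rfl⟩⟩
  obtain ⟨M, hM⟩ : ∃ M : ℝ, ∀ p : υ × κ, M ≤ y p.1 p.2 := by
    obtain ⟨M, hM⟩ := (Set.finite_range (fun p : υ × κ => y p.1 p.2)).bddBelow
    exact ⟨M, fun p => hM ⟨p, rfl⟩⟩
  -- shift of the second family
  set D : ℝ := L - M + 2 with hD
  refine ⟨fun t i => Sum.elim (fun i => x t.1 i) (fun k => y t.2 k + D) i,
    fun t => (a t.1, c t.2 - D • d t.2), fun t => (b t.1, d t.2), ?_, ?_⟩
  · intro i j hij
    rcases i with i | i <;> rcases j with j | j
    · obtain ⟨f, e, hf1, hf2⟩ := h1 i j (fun h => hij (by rw [h]))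
      refine ⟨f ∘ₗ (LinearMap.prodMap LinearMap.id (LinearMap.fst ℝ V W)), e, ?_, ?_⟩
      · intro t
        simpa [pt] using hf1 t.1
      · intro t
        simpa [pt] using hf2 t.1
    · refine ⟨LinearMap.fst ℝ ℝ (V × W), L + 1, ?_, ?_⟩
      · intro t
        have := hL (t.1, i)
        simp [pt]
        simp at this
        linarith
      · intro t
        have := hM (t.2, j)
        simp [pt]
        simp at this
        linarith
    · refine ⟨-LinearMap.fst ℝ ℝ (V × W), -(L + 1), ?_, ?_⟩
      · intro t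
        have := hM (t.2, i)
        simp [pt]
        simp at this
        linarith
      · intro t
        have := hL (t.1, j)
        simp [pt]
        simp at this
        linarith
    · obtain ⟨f, e, hf1, hf2⟩ := h3 i j (fun h => hij (by rw [h]))
      refine ⟨f ∘ₗ (LinearMap.prodMap LinearMap.id (LinearMap.snd ℝ V W)),
        e + f (D, 0), ?_, ?_⟩
      · intro t
        have h := hf1 t.2
        have hv : (y t.2 i + D, c t.2 - D • d t.2 + (y t.2 i + D) • d t.2)
            = pt y c d t.2 i + ((D, 0) : ℝ × W) := by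
          simp only [pt, Prod.mk_add_mk, add_zero, Prod.mk.injEq, true_and]
          module
        change f (y t.2 i + D, c t.2 - D • d t.2 + (y t.2 i + D) • d t.2) < e + f (D, 0)
        rw [hv, map_add]
        linarith
      · intro t
        have h := hf2 t.2
        have hv : (y t.2 j + D, c t.2 - D • d t.2 + (y t.2 j + D) • d t.2)
            = pt y c d t.2 j + ((D, 0) : ℝ × W) := by
          simp only [pt, Prod.mk_add_mk, add_zero, Prod.mk.injEq, true_and]
          module
        change e + f (D, 0) < f (y t.2 j + D, c t.2 - D • d t.2 + (y t.2 j + D) • d t.2)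
        rw [hv, map_add]
        linarith
  · rintro ⟨t, u⟩ ⟨t', u'⟩ htt
    by_cases ht : t = t'
    · have hu : u ≠ u' := fun h => htt (by rw [ht, h])
      obtain ⟨i, j, hi, hj⟩ := h4 u u' hu
      exact ⟨Sum.inr i, Sum.inr j, by simpa using hi, by simpa using hj⟩
    · obtain ⟨i, j, hi, hj⟩ := h2 t t' ht
      exact ⟨Sum.inl i, Sum.inl j, by simpa using hi, by simpa using hj⟩

end Pool.Agent.helper8.GP
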