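import Mathlib
import Pool.Agent.helper8.GP.Core

set_option autoImplicit false

/-!
Geometric permutations of lines: the inductive construction (helper file for MP_25490b_co).

A configuration of lines `x ↦ (x, a t + x • b t)` in `ℝ × V` satisfies hypothesis (H) if all slopes
`b t` lie in the kernel of one nonzero linear functional `ρ` on `V`.
* `GoodH.block`: adding one dimension and `2 m` sets multiplies the number of orders by `m² + 1`,
  and (H) is preserved.
* `GoodH.plates`: adding `m` sets (no new dimension) multiplies the number of orders by `m + 1`.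
-/

namespace Pool.Agent.helper8.GP

open Filter Topology

/-- strict separation of two of the point sets -/
def Sep {E ι τ : Type} [AddCommGroup E] [Module ℝ E] (P : τ → ι → E) (i j : ι) : Prop :=
  ∃ (f : E →ₗ[ℝ] ℝ) (c : ℝ), (∀ t, f (P t i) < c) ∧ (∀ t, c < f (P t j))

theorem Sep.symm {E ι τ : Type} [AddCommGroup E] [Module ℝ E] {P : τ → ι → E} {i j : ι}
    (h : Sep P i j) : Sep P j i := by
  obtain ⟨f, c, h1, h2⟩ := h
  refine ⟨-f, -c, fun t => ?_, fun t => ?_⟩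
  · have := h2 t
    simp only [LinearMap.neg_apply]
    linarith
  · have := h1 t
    simp only [LinearMap.neg_apply]
    linarith

/-- A good configuration in which all slopes lie in the kernel of a functional `ρ` with
`ρ w = 1` for some `w`. -/
def GoodH (V ι τ : Type) [AddCommGroup V] [Module ℝ V] : Prop :=
  ∃ (x : τ → ι → ℝ) (a b : τ → V) (ρ : V →ₗ[ℝ] ℝ) (w : V),
    (∀ t, ρ (b t) = 0) ∧ ρ w = 1 ∧
    (∀ i j, i ≠ j → Sep (pt x a b) i j) ∧
    (∀ t t', t ≠ t' → ∃ i j, x t i < x t j ∧ x t' j < x t' i)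

theorem GoodH.equiv {V W ι τ : Type} [AddCommGroup V] [Module ℝ V] [AddCommGroup W] [Module ℝ W]
    (e : V ≃ₗ[ℝ] W) (h : GoodH V ι τ) : GoodH W ι τ := by
  obtain ⟨x, a, b, ρ, w, hb, hw, h1, h2⟩ := h
  refine ⟨x, fun t => e (a t), fun t => e (b t), ρ ∘ₗ e.symm.toLinearMap, e w, ?_, ?_, ?_, h2⟩
  · intro t
    simpa using hb t
  · simpa using hw
  intro i j hij
  obtain ⟨f, c, hf1, hf2⟩ := h1 i j hij
  refine ⟨f ∘ₗ (LinearMap.prodMap LinearMap.id e.symm.toLinearMap), c, ?_, ?_⟩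
  · intro t
    have := hf1 t
    simpa [pt] using this
  · intro t
    have := hf2 t
    simpa [pt] using this

theorem GoodH.reindex {V ι ι' τ τ' : Type} [AddCommGroup V] [Module ℝ V]
    (e : ι' ≃ ι) (g : τ' ↪ τ) (h : GoodH V ι τ) : GoodH V ι' τ' := by
  obtain ⟨x, a, b, ρ, w, hb, hw, h1, h2⟩ := h
  refine ⟨fun t i => x (g t) (e i), fun t => a (g t), fun t => b (g t), ρ, w,
    fun t => hb (g t), hw, ?_, ?_⟩
  · intro i j hij
    obtain ⟨f, c, hf1, hf2⟩ := h1 (e i) (e j) (fun h => hij (e.injective h))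
    exact ⟨f, c, fun t => hf1 (g t), fun t => hf2 (g t)⟩
  · intro t t' htt
    obtain ⟨i, j, hi, hj⟩ := h2 (g t) (g t') (fun h => htt (g.injective h))
    exact ⟨e.symm i, e.symm j, by simpa using hi, by simpa using hj⟩

/-- Strict separation survives small changes of the slopes. -/
theorem perturb {V ι τ : Type} [AddCommGroup V] [Module ℝ V] [Finite ι] [Finite τ]
    (x : τ → ι → ℝ) (a b : τ → V) (w : V) (h : ∀ i j, i ≠ j → Sep (pt x a b) i j) :
    ∃ δ : ℝ, 0 < δ ∧ ∀ i j, i ≠ j → ∃ (f : (ℝ × V) →ₗ[ℝ] ℝ) (c : ℝ), ∀ θ : ℝ, |θ| < δ → ∀ t,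
      f (x t i, a t + x t i • (b t + θ • w)) < c ∧
      c < f (x t j, a t + x t j • (b t + θ • w)) := by
  choose f c h1 h2 using h
  have key : ∀ (g : (ℝ × V) →ₗ[ℝ] ℝ) (t : τ) (k : ι) (θ : ℝ),
      g (x t k, a t + x t k • (b t + θ • w)) =
        g (pt x a b t k) + θ * (x t k * g (0, w)) := by
    intro g t k θ
    have : (x t k, a t + x t k • (b t + θ • w)) =
        pt x a b t k + (θ * x t k) • ((0, w) : ℝ × V) := by
      simp only [pt, Prod.smul_mk, smul_zero, Prod.mk_add_mk, add_zero, Prod.mk.injEq, true_and]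
      module
    rw [this, map_add, map_smul, smul_eq_mul]
    ring
  have hev : ∀ᶠ θ : ℝ in 𝓝 0, ∀ i j (hij : i ≠ j) (t : τ),
      f i j hij (pt x a b t i) + θ * (x t i * f i j hij (0, w)) < c i j hij ∧
      c i j hij < f i j hij (pt x a b t j) + θ * (x t j * f i j hij (0, w)) := by
    rw [eventually_all]; intro i
    rw [eventually_all]; intro j
    rw [eventually_all]; intro hij
    rw [eventually_all]; intro t
    refine Filter.Eventually.and ?_ ?_
    · have hc : Continuous (fun θ : ℝ => f i j hij (pt x a b t i) +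
          θ * (x t i * f i j hij (0, w))) := by fun_prop
      have h3 : f i j hij (pt x a b t i) + 0 * (x t i * f i j hij (0, w)) < c i j hij := by
        simpa using h1 i j hij t
      exact hc.continuousAt.eventually_lt continuousAt_const h3
    · have hc : Continuous (fun θ : ℝ => f i j hij (pt x a b t j) +
          θ * (x t j * f i j hij (0, w))) := by fun_prop
      have h3 : c i j hij < f i j hij (pt x a b t j) + 0 * (x t j * f i j hij (0, w)) := by
        simpa using h2 i j hij t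
      exact continuousAt_const.eventually_lt hc.continuousAt h3
  obtain ⟨δ, hδ, hδ'⟩ := Metric.eventually_nhds_iff.mp hev
  refine ⟨δ, hδ, fun i j hij => ⟨f i j hij, c i j hij, fun θ hθ t => ?_⟩⟩
  rw [key, key]
  exact hδ' (by simpa [Real.dist_eq] using hθ) i j hij t

/-! ### Elementary estimates -/

/-- the parameter `t - 1/2` -/
noncomputable def ss (t : ℕ) : ℝ := (t : ℝ) - 1 / 2

/-- a common bound -/
noncomputable def XB (m : ℕ) : ℝ := 2 * (m * m : ℕ) + 2 * m + 1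

theorem one_le_XB (m : ℕ) : 1 ≤ XB m := by
  unfold XB
  have h1 : (0 : ℝ) ≤ ((m * m : ℕ) : ℝ) := Nat.cast_nonneg _
  have h2 : (0 : ℝ) ≤ (m : ℝ) := Nat.cast_nonneg _
  linarith

theorem abs_ss (m : ℕ) (t : Fin (m * m + 1)) : |ss t| ≤ XB m := by
  have h1 : ((t : ℕ) : ℝ) ≤ ((m * m : ℕ) : ℝ) := by
    exact_mod_cast Nat.lt_succ_iff.mp t.2
  have h2 : (0 : ℝ) ≤ ((t : ℕ) : ℝ) := Nat.cast_nonneg _
  have h3 : (0 : ℝ) ≤ (m : ℝ) := Nat.cast_nonneg _
  unfold ss XB
  rw [abs_le]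
  constructor <;> linarith

theorem ij_lt (m : ℕ) (i j : Fin m) : m * (j : ℕ) + (i : ℕ) < m * m := by
  have h1 := i.2
  have h2 := j.2
  calc m * (j : ℕ) + (i : ℕ) < m * (j : ℕ) + m := by omega
    _ = m * ((j : ℕ) + 1) := by ring
    _ ≤ m * m := Nat.mul_le_mul_left _ h2

theorem abs_xA (m : ℕ) (t : Fin (m * m + 1)) (i : Fin m) :
    |ss t - 2 * ((i : ℕ) : ℝ)| ≤ XB m := by
  have h1 : ((t : ℕ) : ℝ) ≤ ((m * m : ℕ) : ℝ) := by
    exact_mod_cast Nat.lt_succ_iff.mp t.2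
  have h2 : (0 : ℝ) ≤ ((t : ℕ) : ℝ) := Nat.cast_nonneg _
  have h3 : ((i : ℕ) : ℝ) + 1 ≤ (m : ℝ) := by exact_mod_cast i.2
  have h4 : (0 : ℝ) ≤ ((i : ℕ) : ℝ) := Nat.cast_nonneg _
  unfold ss XB
  rw [abs_le]
  constructor <;> linarith

theorem abs_xB (m : ℕ) (t : Fin (m * m + 1)) (j : Fin m) :
    |2 * (m : ℝ) * ((j : ℕ) : ℝ) - ss t| ≤ XB m := by
  have h1 : ((t : ℕ) : ℝ) ≤ ((m * m : ℕ) : ℝ) := by
    exact_mod_cast Nat.lt_succ_iff.mp t.2
  have h2 : (0 : ℝ) ≤ ((t : ℕ) : ℝ) := Nat.cast_nonneg _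
  have h3 : (m : ℝ) * ((j : ℕ) : ℝ) ≤ ((m * m : ℕ) : ℝ) := by
    have : m * (j : ℕ) ≤ m * m := Nat.mul_le_mul_left _ (le_of_lt j.2)
    exact_mod_cast this
  have h4 : (0 : ℝ) ≤ (m : ℝ) * ((j : ℕ) : ℝ) := by positivity
  have h5 : (0 : ℝ) ≤ (m : ℝ) := Nat.cast_nonneg _
  unfold ss XB
  rw [abs_le]
  constructor <;> nlinarith

theorem abs_p (m : ℕ) (i j : Fin m) : |(m : ℝ) * ((j : ℕ) : ℝ) - ((i : ℕ) : ℝ)| ≤ XB m := by
  have h1 : (m : ℝ) * ((j : ℕ) : ℝ) + ((i : ℕ) : ℝ) + 1 ≤ ((m * m : ℕ) : ℝ) := by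
    have := ij_lt m i j
    exact_mod_cast this
  have h2 : (0 : ℝ) ≤ ((i : ℕ) : ℝ) := Nat.cast_nonneg _
  have h3 : (0 : ℝ) ≤ m * ((j : ℕ) : ℝ) := by positivity
  have h4 : (0 : ℝ) ≤ (m : ℝ) := Nat.cast_nonneg _
  have h5 : ((i : ℕ) : ℝ) + 1 ≤ (m : ℝ) := by exact_mod_cast i.2
  unfold XB
  rw [abs_le]
  constructor <;> linarith

/-- `(s - q)² ≥ 1/4` for the half-integer `s` and the integer `q` -/
theorem sq_ge (t q : ℕ) : 1 / 4 ≤ (ss t - (q : ℝ)) ^ 2 := by
  unfold ss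
  rcases Nat.lt_or_ge q t with h | h
  · have h1 : (q : ℝ) + 1 ≤ t := by exact_mod_cast h
    nlinarith
  · have h1 : (t : ℝ) ≤ q := by exact_mod_cast h
    nlinarith

theorem exists_ij (m k : ℕ) (hk : k < m * m) : ∃ i j : Fin m, m * (j : ℕ) + (i : ℕ) = k := by
  have hm : 0 < m := by
    rcases Nat.eq_zero_or_pos m with h | h
    · subst h; simp at hk
    · exact h
  exact ⟨⟨k % m, Nat.mod_lt _ hm⟩, ⟨k / m, Nat.div_lt_of_lt_mul hk⟩, Nat.div_add_mod k m⟩

/-! ### The block step -/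

/-- the linear functional `α x + γ ρ(v) + β y` on `ℝ × (V × ℝ)` -/
noncomputable def linB {V : Type} [AddCommGroup V] [Module ℝ V] (ρ : V →ₗ[ℝ] ℝ) (α γ β : ℝ) :
    (ℝ × (V × ℝ)) →ₗ[ℝ] ℝ :=
  α • LinearMap.fst ℝ ℝ (V × ℝ) +
    (γ • (ρ ∘ₗ LinearMap.fst ℝ V ℝ) + β • LinearMap.snd ℝ V ℝ) ∘ₗ LinearMap.snd ℝ ℝ (V × ℝ)

theorem linB_apply {V : Type} [AddCommGroup V] [Module ℝ V] (ρ : V →ₗ[ℝ] ℝ) (α γ β x y : ℝ)
    (v : V) : linB ρ α γ β (x, (v, y)) = α * x + γ * ρ v + β * y := by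
  simp [linB]; ring

theorem GoodH.block {V ι τ : Type} [AddCommGroup V] [Module ℝ V] [Finite ι] [Finite τ]
    (m : ℕ) (h : GoodH V ι τ) : GoodH (V × ℝ) (ι ⊕ (Fin m ⊕ Fin m)) (τ × Fin (m * m + 1)) := by
  obtain ⟨x, a, b, ρ, w, hb, hw, h1, h2⟩ := h
  obtain ⟨δ, hδ, hpert⟩ := perturb x a b w h1
  have hXB := one_le_XB m
  -- `η`
  obtain ⟨η, hη, hηδ⟩ : ∃ η : ℝ, 0 < η ∧ ∀ t : Fin (m * m + 1), |η * ss t| < δ := by
    refine ⟨δ / (2 * XB m), by positivity, fun t => ?_⟩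
    rw [abs_mul, abs_of_pos (by positivity : 0 < δ / (2 * XB m))]
    calc δ / (2 * XB m) * |ss t| ≤ δ / (2 * XB m) * XB m := by
          gcongr
          exact abs_ss m t
      _ = δ / 2 := by field_simp
      _ < δ := by linarith
  -- bounds for the old configuration
  obtain ⟨X, hX⟩ : ∃ X : ℝ, ∀ p : τ × ι, x p.1 p.2 ≤ X := by
    obtain ⟨L, hL⟩ := (Set.finite_range (fun p : τ × ι => x p.1 p.2)).bddAbove
    exact ⟨L, fun p => hL ⟨p, rfl⟩⟩
  obtain ⟨R, hR⟩ : ∃ R : ℝ, ∀ t : τ, |ρ (a t)| ≤ R := by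
    obtain ⟨L, hL⟩ := (Set.finite_range (fun t : τ => |ρ (a t)|)).bddAbove
    exact ⟨L, fun p => hL ⟨p, rfl⟩⟩
  -- `L`
  obtain ⟨L, hL0, hLX, hLR⟩ : ∃ L : ℝ, 0 < L ∧ X + XB m + 1 < L ∧
      8 * XB m * (|R| / η + XB m ^ 2) ≤ L := by
    refine ⟨8 * XB m * (|R| / η + XB m ^ 2) + |X| + XB m + 2, by positivity, ?_, ?_⟩
    · have h3 : 0 ≤ 8 * XB m * (|R| / η + XB m ^ 2) := by positivity
      have := le_abs_self X
      linarith
    · have := abs_nonneg X
      linarith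
  set κ : ℝ := 1 / (η * L) with hκ
  -- the error term
  have herr : ∀ (t : τ) (s : Fin (m * m + 1)) (ξ : ℝ), |ξ| ≤ XB m →
      ∃ e : ℝ, |e| ≤ 1 / (8 * XB m) ∧
        κ * (ρ (a t) + (L + ξ) * (η * ss s)) = ss s + e := by
    intro t s ξ hξ
    refine ⟨ρ (a t) / (η * L) + ss s * ξ / L, ?_, ?_⟩
    · have e1 : |ρ (a t) / (η * L)| ≤ |R| / η / L := by
        rw [abs_div, abs_of_pos (by positivity : 0 < η * L), div_div]
        exact div_le_div_of_nonneg_right ((hR t).trans (le_abs_self R)) (by positivity)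
      have e2 : |ss s * ξ / L| ≤ XB m ^ 2 / L := by
        rw [abs_div, abs_mul, abs_of_pos hL0]
        gcongr
        calc |ss s| * |ξ| ≤ XB m * XB m := by
              gcongr
              exact abs_ss m s
          _ = XB m ^ 2 := by ring
      calc |ρ (a t) / (η * L) + ss s * ξ / L| ≤ |R| / η / L + XB m ^ 2 / L :=
            (abs_add_le _ _).trans (add_le_add e1 e2)
        _ = (|R| / η + XB m ^ 2) / L := by ring
        _ ≤ 1 / (8 * XB m) := by
            rw [div_le_div_iff₀ hL0 (by positivity)]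
            linarith
    · rw [hκ]
      field_simp
      ring
  -- the new configuration
  set x' : τ × Fin (m * m + 1) → ι ⊕ (Fin m ⊕ Fin m) → ℝ := fun t i =>
    Sum.elim (fun i : ι => x t.1 i)
      (Sum.elim (fun i : Fin m => L + (ss t.2 - 2 * ((i : ℕ) : ℝ)))
        (fun j : Fin m => L + (2 * (m : ℝ) * ((j : ℕ) : ℝ) - ss t.2))) i with hx'
  set a' : τ × Fin (m * m + 1) → V × ℝ := fun t => (a t.1, -(ss t.2 * L)) with ha'
  set b' : τ × Fin (m * m + 1) → V × ℝ := fun t => (b t.1 + (η * ss t.2) • w, ss t.2) with hb'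
  -- values of functionals at new points
  have hval : ∀ (t : τ × Fin (m * m + 1)) (i : ι ⊕ (Fin m ⊕ Fin m)) (ξ : ℝ),
      x' t i = L + ξ → |ξ| ≤ XB m → ∃ e : ℝ, |e| ≤ 1 / (8 * XB m) ∧ ∀ α γ β : ℝ,
        linB ρ α (γ * κ) β (pt x' a' b' t i) =
          α * (L + ξ) + γ * (ss t.2 + e) + β * (ss t.2 * ξ) := by
    intro t i ξ hi hξ
    obtain ⟨e, he1, he2⟩ := herr t.1 t.2 ξ hξ
    refine ⟨e, he1, fun α γ β => ?_⟩
    have e3 : pt x' a' b' t i = (L + ξ, (a t.1 + (L + ξ) • (b t.1 + (η * ss t.2) • w),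
        -(ss t.2 * L) + (L + ξ) * ss t.2)) := by
      simp only [pt, ha', hb', hi, Prod.smul_mk, Prod.mk_add_mk, smul_eq_mul]
    rw [e3, linB_apply, map_add, map_smul, map_add, map_smul, hb t.1, hw, ← he2]
    simp only [smul_eq_mul]
    ring
  have herr8 : ∀ e : ℝ, |e| ≤ 1 / (8 * XB m) → |e| ≤ 1 / 8 := by
    intro e he
    refine he.trans ?_
    rw [div_le_div_iff₀ (by positivity) (by norm_num)]
    linarith
  have hperr : ∀ e p : ℝ, |e| ≤ 1 / (8 * XB m) → |p| ≤ XB m → |p * e| ≤ 1 / 8 := by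
    intro e p he hp
    rw [abs_mul]
    calc |p| * |e| ≤ XB m * (1 / (8 * XB m)) := by gcongr
      _ = 1 / 8 := by field_simp
  have hxA : ∀ (t : τ × Fin (m * m + 1)) (i : Fin m),
      x' t (Sum.inr (Sum.inl i)) = L + (ss t.2 - 2 * ((i : ℕ) : ℝ)) := fun t i => rfl
  have hxB : ∀ (t : τ × Fin (m * m + 1)) (j : Fin m),
      x' t (Sum.inr (Sum.inr j)) = L + (2 * (m : ℝ) * ((j : ℕ) : ℝ) - ss t.2) := fun t j => rfl
  -- old against new
  have hON : ∀ (i : ι) (j : Fin m ⊕ Fin m), Sep (pt x' a' b') (Sum.inl i) (Sum.inr j) := by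
    intro i j
    refine ⟨LinearMap.fst ℝ ℝ (V × ℝ), X + 1 / 2, fun t => ?_, fun t => ?_⟩
    · have e1 : x' t (Sum.inl i) = x t.1 i := rfl
      have e2 := hX (t.1, i)
      simp only [pt, LinearMap.fst_apply, e1]
      simp only at e2
      linarith
    · rcases j with j | j
      · have e1 := hxA t j
        have e2 := abs_le.mp (abs_xA m t.2 j)
        simp only [pt, LinearMap.fst_apply, e1]
        linarith [e2.1]
      · have e1 := hxB t j
        have e2 := abs_le.mp (abs_xB m t.2 j)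
        simp only [pt, LinearMap.fst_apply, e1]
        linarith [e2.1]
  have hAA : ∀ i i' : Fin m, i < i' →
      Sep (pt x' a' b') (Sum.inr (Sum.inl i')) (Sum.inr (Sum.inl i)) := by
    intro i i' hii
    have hi : ((i : ℕ) : ℝ) + 1 ≤ ((i' : ℕ) : ℝ) := by exact_mod_cast hii
    refine ⟨linB ρ 1 ((-1) * κ) 0, L - 2 * (i : ℕ) - 1, fun t => ?_, fun t => ?_⟩
    · obtain ⟨e, he1, he2⟩ := hval t (Sum.inr (Sum.inl i')) _ (hxA t i') (abs_xA m t.2 i')
      rw [he2]
      have := abs_le.mp (herr8 e he1)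
      linarith [this.1, this.2]
    · obtain ⟨e, he1, he2⟩ := hval t (Sum.inr (Sum.inl i)) _ (hxA t i) (abs_xA m t.2 i)
      rw [he2]
      have := abs_le.mp (herr8 e he1)
      linarith [this.1, this.2]
  have hBB : ∀ j j' : Fin m, j < j' →
      Sep (pt x' a' b') (Sum.inr (Sum.inr j)) (Sum.inr (Sum.inr j')) := by
    intro j j' hjj
    have hj : ((j : ℕ) : ℝ) + 1 ≤ ((j' : ℕ) : ℝ) := by exact_mod_cast hjj
    have hm' : (1 : ℝ) ≤ m := by
      have : 1 ≤ m := by have := j.2; omega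
      exact_mod_cast this
    have hij : (m : ℝ) * (j : ℕ) + 1 ≤ m * (j' : ℕ) := by nlinarith
    refine ⟨linB ρ 1 (1 * κ) 0, L + 2 * m * (j : ℕ) + 1, fun t => ?_, fun t => ?_⟩
    · obtain ⟨e, he1, he2⟩ := hval t (Sum.inr (Sum.inr j)) _ (hxB t j) (abs_xB m t.2 j)
      rw [he2]
      have := abs_le.mp (herr8 e he1)
      linarith [this.1, this.2]
    · obtain ⟨e, he1, he2⟩ := hval t (Sum.inr (Sum.inr j')) _ (hxB t j') (abs_xB m t.2 j')
      rw [he2]
      have := abs_le.mp (herr8 e he1)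
      linarith [this.1, this.2]
  have hAB : ∀ i j : Fin m, Sep (pt x' a' b') (Sum.inr (Sum.inr j)) (Sum.inr (Sum.inl i)) := by
    intro i j
    set p : ℝ := (m : ℝ) * ((j : ℕ) : ℝ) - ((i : ℕ) : ℝ) with hp
    set q : ℝ := ((m * (j : ℕ) + (i : ℕ) : ℕ) : ℝ) with hq
    have hq' : q = m * ((j : ℕ) : ℝ) + ((i : ℕ) : ℝ) := by rw [hq]; push_cast; ring
    refine ⟨linB ρ (-q) ((-p) * κ) 1, -(q * L) - p * q, fun t => ?_, fun t => ?_⟩
    · obtain ⟨e, he1, he2⟩ := hval t (Sum.inr (Sum.inr j)) _ (hxB t j) (abs_xB m t.2 j)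
      rw [he2]
      have e1 := abs_le.mp (hperr e p he1 (abs_p m i j))
      have e2 := sq_ge t.2 (m * (j : ℕ) + (i : ℕ))
      rw [← hq] at e2
      have e3 : -q * (L + (2 * (m : ℝ) * ((j : ℕ) : ℝ) - ss t.2)) + -p * (ss t.2 + e) +
          1 * (ss t.2 * (2 * (m : ℝ) * ((j : ℕ) : ℝ) - ss t.2)) =
          -(q * L) - p * q - (ss t.2 - q) ^ 2 - p * e := by
        rw [hp, hq']; ring
      rw [e3]
      linarith [e1.1, e1.2]
    · obtain ⟨e, he1, he2⟩ := hval t (Sum.inr (Sum.inl i)) _ (hxA t i) (abs_xA m t.2 i)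
      rw [he2]
      have e1 := abs_le.mp (hperr e p he1 (abs_p m i j))
      have e2 := sq_ge t.2 (m * (j : ℕ) + (i : ℕ))
      rw [← hq] at e2
      have e3 : -q * (L + (ss t.2 - 2 * ((i : ℕ) : ℝ))) + -p * (ss t.2 + e) +
          1 * (ss t.2 * (ss t.2 - 2 * ((i : ℕ) : ℝ))) =
          -(q * L) - p * q + (ss t.2 - q) ^ 2 - p * e := by
        rw [hp, hq']; ring
      rw [e3]
      linarith [e1.1, e1.2]
  refine ⟨x', a', b', ρ ∘ₗ LinearMap.fst ℝ V ℝ - η • LinearMap.snd ℝ V ℝ, (w, 0),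
    ?_, ?_, ?_, ?_⟩
  · intro t
    simp [hb', hb t.1, hw]
  · simp [hw]
  · intro i j hij
    rcases i with i | i | i <;> rcases j with j | j | j
    · obtain ⟨f, c, hf⟩ := hpert i j (fun h => hij (by rw [h]))
      refine ⟨f ∘ₗ (LinearMap.prodMap LinearMap.id (LinearMap.fst ℝ V ℝ)), c, ?_, ?_⟩
      · intro t
        have := (hf (η * ss t.2) (hηδ t.2) t.1).1
        simpa [pt, hx', ha', hb'] using this
      · intro t
        have := (hf (η * ss t.2) (hηδ t.2) t.1).2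
        simpa [pt, hx', ha', hb'] using this
    · exact hON i _
    · exact hON i _
    · exact (hON j _).symm
    · rcases lt_trichotomy i j with h | h | h
      · exact (hAA i j h).symm
      · exact absurd (by rw [h]) hij
      · exact hAA j i h
    · exact (hAB i j).symm
    · exact (hON j _).symm
    · exact hAB j i
    · rcases lt_trichotomy i j with h | h | h
      · exact hBB i j h
      · exact absurd (by rw [h]) hij
      · exact (hBB j i h).symm
  · rintro ⟨t, s⟩ ⟨t', s'⟩ htt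
    by_cases ht : t = t'
    · have hs : s ≠ s' := fun h => htt (by rw [ht, h])
      have hord : ∀ (u : τ × Fin (m * m + 1)) (i j : Fin m),
          x' u (Sum.inr (Sum.inl i)) - x' u (Sum.inr (Sum.inr j)) =
            2 * (((u.2 : ℕ) : ℝ) - ((m * (j : ℕ) + (i : ℕ) : ℕ) : ℝ)) - 1 := by
        intro u i j
        rw [hxA, hxB]
        unfold ss
        push_cast
        ring
      rcases lt_or_gt_of_ne hs with h3 | h3
      · have hk : (s : ℕ) < m * m := lt_of_lt_of_le h3 (Nat.lt_succ_iff.mp s'.2)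
        obtain ⟨i, j, hij⟩ := exists_ij m _ hk
        refine ⟨Sum.inr (Sum.inl i), Sum.inr (Sum.inr j), ?_, ?_⟩
        · have := hord (t, s) i j
          rw [hij] at this
          simp only at this
          linarith
        · have := hord (t', s') i j
          rw [hij] at this
          have h4 : ((s : ℕ) : ℝ) + 1 ≤ ((s' : ℕ) : ℝ) := by exact_mod_cast h3
          simp only at this
          linarith
      · have hk : (s' : ℕ) < m * m := lt_of_lt_of_le h3 (Nat.lt_succ_iff.mp s.2)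
        obtain ⟨i, j, hij⟩ := exists_ij m _ hk
        refine ⟨Sum.inr (Sum.inr j), Sum.inr (Sum.inl i), ?_, ?_⟩
        · have := hord (t, s) i j
          rw [hij] at this
          have h4 : ((s' : ℕ) : ℝ) + 1 ≤ ((s : ℕ) : ℝ) := by exact_mod_cast h3
          simp only at this
          linarith
        · have := hord (t', s') i j
          rw [hij] at this
          simp only at this
          linarith
    · obtain ⟨i, j, hi, hj⟩ := h2 t t' ht
      exact ⟨Sum.inl i, Sum.inl j, hi, hj⟩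

end Pool.Agent.helper8.GP
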