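import Mathlib
import Pool.Agent.helper8.GP.Ind

set_option autoImplicit false

/-!
Geometric permutations of lines: the plates step (helper file for MP_25490b_co).
-/

namespace Pool.Agent.helper8.GP

theorem den_ne (l k : ℕ) : ((l : ℝ) - (k : ℝ) - 1 / 2) ≠ 0 := by
  intro h
  have h2 : (2 * l : ℝ) = 2 * k + 1 := by linarith
  have h3 : 2 * l = 2 * k + 1 := by exact_mod_cast h2
  omega

theorem den_ge (l k : ℕ) : (1 : ℝ) / 2 ≤ |(l : ℝ) - (k : ℝ) - 1 / 2| := by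
  rcases Nat.lt_or_ge k l with h | h
  · have h1 : (k : ℝ) + 1 ≤ l := by exact_mod_cast h
    rw [abs_of_nonneg (by linarith)]
    linarith
  · have h1 : (l : ℝ) ≤ k := by exact_mod_cast h
    rw [abs_of_nonpos (by linarith)]
    linarith

theorem den_le {m : ℕ} (l : Fin (m + 1)) (k : Fin m) :
    |((l : ℕ) : ℝ) - ((k : ℕ) : ℝ) - 1 / 2| ≤ (m : ℝ) + 1 := by
  have h1 : ((l : ℕ) : ℝ) ≤ (m : ℝ) := by exact_mod_cast Nat.lt_succ_iff.mp l.2
  have h2 : ((k : ℕ) : ℝ) + 1 ≤ (m : ℝ) := by exact_mod_cast k.2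
  have h3 : (0 : ℝ) ≤ ((l : ℕ) : ℝ) := Nat.cast_nonneg _
  have h4 : (0 : ℝ) ≤ ((k : ℕ) : ℝ) := Nat.cast_nonneg _
  rw [abs_le]
  constructor <;> linarith

/-- the linear functional `α x + ρ(v)` on `ℝ × V` -/
noncomputable def linP {V : Type} [AddCommGroup V] [Module ℝ V] (ρ : V →ₗ[ℝ] ℝ) (α : ℝ) :
    (ℝ × V) →ₗ[ℝ] ℝ :=
  α • LinearMap.fst ℝ ℝ V + ρ ∘ₗ LinearMap.snd ℝ ℝ V

theorem linP_apply {V : Type} [AddCommGroup V] [Module ℝ V] (ρ : V →ₗ[ℝ] ℝ) (α x : ℝ)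
    (v : V) : linP ρ α (x, v) = α * x + ρ v := by
  simp [linP]

theorem GoodH.plates {V ι τ : Type} [AddCommGroup V] [Module ℝ V] [Finite ι] [Finite τ]
    (i₀ : ι) (m : ℕ) (h : GoodH V ι τ) : Good V (ι ⊕ Fin m) (τ × Fin (m + 1)) := by
  obtain ⟨x, a, b, ρ, w, hb, hw, h1, h2⟩ := h
  obtain ⟨δ, hδ, hpert⟩ := perturb x a b w h1
  -- bounds for the old configuration
  obtain ⟨X, hX0, hX⟩ : ∃ X : ℝ, 0 ≤ X ∧ ∀ (t : τ) (i : ι), |x t i| ≤ X := by
    obtain ⟨L, hL⟩ := (Set.finite_range (fun p : τ × ι => |x p.1 p.2|)).bddAbove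
    exact ⟨|L|, abs_nonneg _, fun t i => (hL ⟨(t, i), rfl⟩).trans (le_abs_self L)⟩
  obtain ⟨R, hR0, hR⟩ : ∃ R : ℝ, 0 ≤ R ∧ ∀ t : τ, |ρ (a t)| ≤ R := by
    obtain ⟨L, hL⟩ := (Set.finite_range (fun t : τ => |ρ (a t)|)).bddAbove
    exact ⟨|L|, abs_nonneg _, fun t => (hL ⟨t, rfl⟩).trans (le_abs_self L)⟩
  -- `ε`
  obtain ⟨ε, hε, hε1, hεX, hεδ⟩ : ∃ ε : ℝ, 0 < ε ∧ ((m : ℝ) + 1) * ε ≤ 1 ∧
      ((m : ℝ) + 1) * ε * X ≤ 1 ∧ ((m : ℝ) + 1) * ε < δ := by
    have hm : (0 : ℝ) < (m : ℝ) + 1 := by positivity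
    have h3 : 0 < min (1 / (X + 1)) (δ / 2) := lt_min (by positivity) (by positivity)
    refine ⟨min (1 / (X + 1)) (δ / 2) / ((m : ℝ) + 1), by positivity, ?_, ?_, ?_⟩
    · rw [mul_div_cancel₀ _ hm.ne']
      refine (min_le_left _ _).trans ?_
      rw [div_le_one (by positivity)]
      linarith
    · rw [mul_div_cancel₀ _ hm.ne']
      calc min (1 / (X + 1)) (δ / 2) * X ≤ 1 / (X + 1) * X := by
            gcongr
            exact min_le_left _ _
        _ ≤ 1 := by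
            rw [div_mul_eq_mul_div, one_mul, div_le_one (by positivity)]
            linarith
    · rw [mul_div_cancel₀ _ hm.ne']
      exact lt_of_le_of_lt (min_le_right _ _) (by linarith)
  -- heights
  set H : ℕ → ℝ := fun k => (2 * R + X + 4) * (4 * (m : ℝ) + 2) ^ k with hH
  have hHpos : ∀ k, 0 < H k := fun k => by positivity
  have hHge : ∀ k, 2 * R + X + 4 ≤ H k := by
    intro k
    have h3 : (1 : ℝ) ≤ (4 * (m : ℝ) + 2) ^ k := by
      apply one_le_pow₀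
      have : (0 : ℝ) ≤ (m : ℝ) := Nat.cast_nonneg _
      linarith
    simp only [hH]
    nlinarith
  have hHlt : ∀ {k k' : ℕ}, k' < k → (4 * (m : ℝ) + 2) * H k' ≤ H k := by
    intro k k' hkk
    have h3 : (0 : ℝ) ≤ (m : ℝ) := Nat.cast_nonneg _
    have h4 : (4 * (m : ℝ) + 2) ^ (k' + 1) ≤ (4 * (m : ℝ) + 2) ^ k :=
      pow_le_pow_right₀ (by linarith) hkk
    simp only [hH]
    calc (4 * (m : ℝ) + 2) * ((2 * R + X + 4) * (4 * (m : ℝ) + 2) ^ k')
        = (2 * R + X + 4) * (4 * (m : ℝ) + 2) ^ (k' + 1) := by ring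
      _ ≤ (2 * R + X + 4) * (4 * (m : ℝ) + 2) ^ k := by gcongr
  -- the new configuration
  set D : ℕ → ℕ → ℝ := fun l k => (l : ℝ) - (k : ℝ) - 1 / 2 with hD
  set x' : τ × Fin (m + 1) → ι ⊕ Fin m → ℝ := fun t i =>
    Sum.elim (fun i : ι => x t.1 i) (fun k : Fin m => (H k - ρ (a t.1)) / (D t.2 k * ε)) i with hx'
  set a' : τ × Fin (m + 1) → V := fun t => a t.1 with ha'
  set b' : τ × Fin (m + 1) → V := fun t => b t.1 + (((t.2 : ℕ) : ℝ) * ε) • w with hb'
  have hval : ∀ (t : τ × Fin (m + 1)) (i : ι ⊕ Fin m) (k : ℕ),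
      linP ρ (-(((k : ℝ) + 1 / 2) * ε)) (pt x' a' b' t i) =
        ρ (a t.1) + (D t.2 k * ε) * x' t i := by
    intro t i k
    simp only [pt, ha', hb']
    rw [linP_apply, map_add, map_smul, map_add, map_smul, hb t.1, hw]
    simp only [smul_eq_mul, hD]
    ring
  have hplate : ∀ (t : τ × Fin (m + 1)) (k : Fin m),
      (D t.2 k * ε) * x' t (Sum.inr k) = H k - ρ (a t.1) := by
    intro t k
    have e1 : x' t (Sum.inr k) = (H k - ρ (a t.1)) / (D t.2 k * ε) := rfl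
    have e2 : D t.2 k * ε ≠ 0 := mul_ne_zero (den_ne t.2 k) hε.ne'
    rw [e1, mul_div_cancel₀ _ e2]
  have hDabs : ∀ (t : τ × Fin (m + 1)) (k : Fin m), |D t.2 k * ε| ≤ ((m : ℝ) + 1) * ε := by
    intro t k
    rw [abs_mul, abs_of_pos hε]
    gcongr
    exact den_le t.2 k
  -- old against plates
  have hOC : ∀ (i : ι) (k : Fin m), Sep (pt x' a' b') (Sum.inl i) (Sum.inr k) := by
    intro i k
    refine ⟨linP ρ (-((((k : ℕ) : ℝ) + 1 / 2) * ε)), R + 3 / 2, fun t => ?_, fun t => ?_⟩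
    · rw [hval]
      have e1 : |D t.2 k * ε * x' t (Sum.inl i)| ≤ 1 := by
        rw [abs_mul]
        calc |D t.2 k * ε| * |x' t (Sum.inl i)| ≤ ((m : ℝ) + 1) * ε * X := by
              gcongr
              · exact hDabs t k
              · exact hX t.1 i
          _ ≤ 1 := hεX
      have e2 := abs_le.mp e1
      have e3 := abs_le.mp (hR t.1)
      linarith [e2.1, e2.2, e3.1, e3.2]
    · rw [hval, hplate]
      have := hHge k
      linarith
  have hCabs : ∀ (t : τ × Fin (m + 1)) (k : Fin m), ε * |x' t (Sum.inr k)| ≤ 4 * H k := by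
    intro t k
    have e1 := hplate t k
    have e2 := den_ge t.2 k
    have e3 := abs_le.mp (hR t.1)
    have e4 := hHge k
    have e5 : |D t.2 k| * ε * |x' t (Sum.inr k)| = |H k - ρ (a t.1)| := by
      rw [← e1, abs_mul, abs_mul, abs_of_pos hε]
    have e6 : |H k - ρ (a t.1)| ≤ 2 * H k := by
      rw [abs_le]
      constructor <;> linarith [e3.1, e3.2]
    have e7 : 1 / 2 * (ε * |x' t (Sum.inr k)|) ≤ |D t.2 k| * (ε * |x' t (Sum.inr k)|) := by
      gcongr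
    have e8 : |D t.2 k| * (ε * |x' t (Sum.inr k)|) = |D t.2 k| * ε * |x' t (Sum.inr k)| := by ring
    linarith
  have hCC : ∀ (k' k : Fin m), k' < k → Sep (pt x' a' b') (Sum.inr k') (Sum.inr k) := by
    intro k' k hkk
    have hk := hHlt (k := k) (k' := k') hkk
    have hp := hHpos k'
    refine ⟨linP ρ (-((((k : ℕ) : ℝ) + 1 / 2) * ε)), (4 * (m : ℝ) + 3 / 2) * H k',
      fun t => ?_, fun t => ?_⟩
    · rw [hval]
      have e1 := hplate t k'
      have e2 : ρ (a t.1) + D t.2 k * ε * x' t (Sum.inr k') =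
          H k' + (((k' : ℕ) : ℝ) - ((k : ℕ) : ℝ)) * (ε * x' t (Sum.inr k')) := by
        have e3 : D t.2 k * ε * x' t (Sum.inr k') = D t.2 k' * ε * x' t (Sum.inr k') +
            (((k' : ℕ) : ℝ) - ((k : ℕ) : ℝ)) * (ε * x' t (Sum.inr k')) := by
          simp only [hD]; ring
        rw [e3, e1]; ring
      rw [e2]
      have e4 : |(((k' : ℕ) : ℝ) - ((k : ℕ) : ℝ)) * (ε * x' t (Sum.inr k'))| ≤
          (m : ℝ) * (4 * H k') := by
        rw [abs_mul, abs_mul ε, abs_of_pos hε]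
        have e5 : |((k' : ℕ) : ℝ) - ((k : ℕ) : ℝ)| ≤ (m : ℝ) := by
          have a1 : ((k : ℕ) : ℝ) ≤ (m : ℝ) := by exact_mod_cast le_of_lt k.2
          have a2 : ((k' : ℕ) : ℝ) ≤ (m : ℝ) := by exact_mod_cast le_of_lt k'.2
          have a3 : (0 : ℝ) ≤ ((k : ℕ) : ℝ) := Nat.cast_nonneg _
          have a4 : (0 : ℝ) ≤ ((k' : ℕ) : ℝ) := Nat.cast_nonneg _
          rw [abs_le]
          constructor <;> linarith
        have e6 := hCabs t k'
        gcongr
      have e7 := abs_le.mp e4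
      nlinarith [e7.1, e7.2]
    · rw [hval, hplate]
      nlinarith
  -- orders
  have hneg : ∀ (t : τ × Fin (m + 1)) (k : Fin m) (i : ι), (t.2 : ℕ) ≤ k →
      x' t (Sum.inr k) < x' t (Sum.inl i) := by
    intro t k i hk
    have e1 := hplate t k
    have e3 := abs_le.mp (hR t.1)
    have e4 := hHge k
    have e5 := abs_le.mp (hDabs t k)
    have e6 := abs_le.mp (hX t.1 i)
    have e7 : ((t.2 : ℕ) : ℝ) ≤ ((k : ℕ) : ℝ) := by exact_mod_cast hk
    have e8 : D t.2 k * ε < 0 := by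
      apply mul_neg_of_neg_of_pos _ hε
      simp only [hD]
      linarith
    have e9 : x' t (Sum.inl i) = x t.1 i := rfl
    rw [e9]
    by_contra hc
    push Not at hc
    have e10 : -1 ≤ D t.2 k * ε := by linarith [e5.1]
    nlinarith [e6.1, e6.2, e3.1, e3.2]
  have hpos : ∀ (t : τ × Fin (m + 1)) (k : Fin m) (i : ι), (k : ℕ) < t.2 →
      x' t (Sum.inl i) < x' t (Sum.inr k) := by
    intro t k i hk
    have e1 := hplate t k
    have e3 := abs_le.mp (hR t.1)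
    have e4 := hHge k
    have e5 := abs_le.mp (hDabs t k)
    have e6 := abs_le.mp (hX t.1 i)
    have e7 : ((k : ℕ) : ℝ) + 1 ≤ ((t.2 : ℕ) : ℝ) := by exact_mod_cast hk
    have e8 : 0 < D t.2 k * ε := by
      apply mul_pos _ hε
      simp only [hD]
      linarith
    have e9 : x' t (Sum.inl i) = x t.1 i := rfl
    rw [e9]
    by_contra hc
    push Not at hc
    have e10 : D t.2 k * ε ≤ 1 := by linarith [e5.2]
    nlinarith [e6.1, e6.2, e3.1, e3.2]
  refine ⟨x', a', b', ?_, ?_⟩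
  · intro i j hij
    rcases i with i | i <;> rcases j with j | j
    · obtain ⟨f, c, hf⟩ := hpert i j (fun h => hij (by rw [h]))
      have hθ : ∀ t : τ × Fin (m + 1), |((t.2 : ℕ) : ℝ) * ε| < δ := by
        intro t
        have h3 : ((t.2 : ℕ) : ℝ) ≤ (m : ℝ) + 1 := by
          have : (t.2 : ℕ) ≤ m + 1 := le_of_lt t.2.2
          exact_mod_cast this
        rw [abs_of_nonneg (by positivity)]
        refine lt_of_le_of_lt ?_ hεδ
        gcongr
      refine ⟨f, c, ?_, ?_⟩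
      · intro t
        exact (hf _ (hθ t) t.1).1
      · intro t
        exact (hf _ (hθ t) t.1).2
    · exact hOC i j
    · exact (hOC j i).symm
    · rcases lt_trichotomy i j with h | h | h
      · exact hCC i j h
      · exact absurd (by rw [h]) hij
      · exact (hCC j i h).symm
  · rintro ⟨t, l⟩ ⟨t', l'⟩ htt
    by_cases ht : t = t'
    · have hl : l ≠ l' := fun h => htt (by rw [ht, h])
      rcases lt_or_gt_of_ne hl with h3 | h3
      · have hk : (l : ℕ) < m := lt_of_lt_of_le h3 (Nat.lt_succ_iff.mp l'.2)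
        exact ⟨Sum.inr ⟨l, hk⟩, Sum.inl i₀, hneg (t, l) ⟨l, hk⟩ i₀ le_rfl,
          hpos (t', l') ⟨l, hk⟩ i₀ h3⟩
      · have hk : (l' : ℕ) < m := lt_of_lt_of_le h3 (Nat.lt_succ_iff.mp l.2)
        exact ⟨Sum.inl i₀, Sum.inr ⟨l', hk⟩, hpos (t, l) ⟨l', hk⟩ i₀ h3,
          hneg (t', l') ⟨l', hk⟩ i₀ le_rfl⟩
    · obtain ⟨i, j, hi, hj⟩ := h2 t t' ht
      exact ⟨Sum.inl i, Sum.inl j, hi, hj⟩

end Pool.Agent.helper8.GP
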